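import Pool.Agent.Y927.GP.M2
import Pool.Agent.W2helper30.AN.Gen

/-! Balanced trajectories of Möller's maps drop; the members of sparse families. -/

set_option autoImplicit false

namespace Pool.Agent.W2helper30.HE

open Finset Filter Topology
open Pool.Agent.H319R2
open Pool.Agent.Y927.GP Pool.Agent.Y927.GP.Mo
open Pool.Agent.W2helper30.AN

/-- growth of `d ^ N` -/
lemma ev_pow (d : ℕ) (hd : 2 ≤ d) (B : ℝ) : ∀ᶠ N : ℕ in atTop, B * N ≤ (d : ℝ) ^ N := by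
  have h1 : Tendsto (fun N : ℕ => (N : ℝ) ^ 1 / (2 : ℝ) ^ N) atTop (𝓝 0) :=
    tendsto_pow_const_div_const_pow_of_one_lt 1 (by norm_num)
  have h2 : ∀ᶠ N : ℕ in atTop, (N : ℝ) ^ 1 / (2 : ℝ) ^ N < 1 / (|B| + 1) :=
    h1.eventually (gt_mem_nhds (by positivity))
  filter_upwards [h2] with N hN
  rw [pow_one, div_lt_div_iff₀ (by positivity) (by positivity), one_mul] at hN
  have h3 : (2 : ℝ) ^ N ≤ (d : ℝ) ^ N := by
    gcongr
    exact_mod_cast hd
  have h4 : B * N ≤ N * (|B| + 1) := by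
    have : (0 : ℝ) ≤ N := Nat.cast_nonneg N
    nlinarith [le_abs_self B]
  linarith

variable {d m : ℕ} {r : ℤ → ℤ}

/-- balanced large integers drop -/
theorem drop (hd : 2 ≤ d) (hm : 2 ≤ m) (hc : Nat.Coprime m d)
    (hle : (m : ℝ) ≤ (d : ℝ) ^ ((d : ℝ) / ((d : ℝ) - 1)))
    (hr : ∀ j : ℤ, 1 ≤ j → j < d → (d : ℤ) ∣ m * j - r j) (D : Leigh.Data d (mm m) (rr r) (mm m) (fun _ => 1)) :
    ∃ c : ℝ, 0 < c ∧ ∀ᶠ N : ℕ in atTop, ∀ y : ℤ, 0 < y → ¬ (d : ℤ) ∣ y →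
      ¬ Unb (Leigh.gm D) (mu (Leigh.gm D) (CC d) (fun _ => 1 / (d : ℝ))) (kap d m * Real.log d / 2) N y →
      ((d : ℝ) ^ (3 * N) ≤ y) → ∃ k : ℕ, 1 ≤ k ∧ Def d m r y k ∧ 0 < (H d m r)^[k] y ∧
        (((H d m r)^[k] y : ℤ) : ℝ) ≤ Real.exp (-(c * N)) * y := by
  obtain ⟨hκ0, hκ1⟩ := kap_bounds hd hm hc hle
  have hmu := mu_kap hd D
  have hgd : ((Leigh.gm D).d : ℝ) = d := rfl
  rw [hgd] at hmu
  have hd1 : (1 : ℝ) < d := by exact_mod_cast (by omega : 1 < d)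
  have hd0 : (0 : ℝ) < d := by linarith
  have hL : 0 < Real.log d := Real.log_pos hd1
  obtain ⟨κ, hκ⟩ : ∃ κ : ℝ, κ = kap d m := ⟨_, rfl⟩
  obtain ⟨L, hLd⟩ : ∃ L : ℝ, L = Real.log d := ⟨_, rfl⟩
  rw [hmu, ← hκ, ← hLd]
  rw [← hκ] at hκ0 hκ1
  rw [← hLd] at hL
  have hexp : ∀ N : ℕ, (d : ℝ) ^ N = Real.exp (L * N) := by
    intro N
    rw [hLd, mul_comm, Real.exp_nat_mul, Real.exp_log hd0]
  refine ⟨κ * L / 4, by positivity, ?_⟩
  have hlin : Tendsto (fun N : ℕ => κ * L / 4 * (N : ℝ)) atTop atTop :=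
    Tendsto.const_mul_atTop (by positivity) tendsto_natCast_atTop_atTop
  filter_upwards [ev_pow d hd (2 * (Leigh.gm D).R), ev_pow d hd (bd d r : ℝ),
    hlin.eventually_ge_atTop (Real.log 2 + 1), eventually_ge_atTop 1] with N h1 h2 h3 h4 y hy hyd hun hbig
  have hN0 : (0 : ℝ) ≤ N := Nat.cast_nonneg N
  have hN1 : (1 : ℝ) ≤ N := by exact_mod_cast h4
  have hyr : (0 : ℝ) < (y : ℝ) := by exact_mod_cast hy
  have habs : |(y : ℝ)| = y := abs_of_pos hyr
  have hR0 := (Leigh.gm D).R_nonneg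
  have hlaw := law (g := Leigh.gm D) (j := N) hun le_rfl (by
    rw [habs]
    have e1 : Real.exp (κ * L / 2 * N) ≤ (d : ℝ) ^ N := by
      rw [hexp]
      apply Real.exp_le_exp.2
      have : κ * L ≤ 1 * L := by gcongr
      nlinarith
    have e2 : max 1 (Real.exp (-(N * (-κ * L)))) ≤ (d : ℝ) ^ N := by
      rw [hexp]
      apply max_le
      · apply Real.one_le_exp
        positivity
      · apply Real.exp_le_exp.2
        have : κ * L ≤ 1 * L := by gcongr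
        nlinarith
    have e3 : (Leigh.gm D).R * (N * (Real.exp (κ * L / 2 * N) * max 1 (Real.exp (-(N * (-κ * L)))))) ≤
        (Leigh.gm D).R * (N * ((d : ℝ) ^ N * (d : ℝ) ^ N)) := by
      gcongr
    refine e3.trans ?_
    have e4 : (d : ℝ) ^ (3 * N) = (d : ℝ) ^ N * ((d : ℝ) ^ N * (d : ℝ) ^ N) := by ring
    rw [e4] at hbig
    have e5 : 2 * (Leigh.gm D).R * N * ((d : ℝ) ^ N * (d : ℝ) ^ N) ≤ (d : ℝ) ^ N * ((d : ℝ) ^ N * (d : ℝ) ^ N) := by
      gcongr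
    linarith)
  have h5 := hlaw.2
  rw [habs] at h5
  have e6 : (N : ℝ) * (-κ * L) + κ * L / 2 * N = -(κ * L / 2 * N) := by ring
  rw [e6] at h5
  have h6 : 2 * Real.exp (-(κ * L / 2 * N)) ≤ Real.exp (-(κ * L / 4 * N)) := by
    have e7 : 2 * Real.exp (-(κ * L / 2 * N)) = Real.exp (Real.log 2 + -(κ * L / 2 * N)) := by
      rw [Real.exp_add, Real.exp_log (by norm_num)]
    rw [e7]
    apply Real.exp_le_exp.2
    have e8 : κ * L / 2 * (N : ℝ) = κ * L / 4 * N + κ * L / 4 * N := by ring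
    linarith
  have h7 : |(((Leigh.gm D).T^[N] y : ℤ) : ℝ)| ≤ Real.exp (-(κ * L / 4 * N)) * y :=
    h5.trans (by gcongr)
  have hTT : (Leigh.gm D).T = T d m r := by rw [Leigh.gm_T, T_eq]
  rw [hTT] at h7
  obtain ⟨k, hk1, hk2, hk3⟩ := key hd (by omega) hr (le_bd (d := d) (r := r)) hy hyd N
  have h8 : (((H d m r)^[k] y : ℤ) : ℝ) ≤ Real.exp (-(κ * L / 4 * N)) * y := by
    rcases hk3 with ⟨s, hs, -⟩ | hk3
    · have h9 : (H d m r)^[k] y ≤ (T d m r)^[N] y := by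
        rw [hs]
        have : (1 : ℤ) ≤ (d : ℤ) ^ s := one_le_pow₀ (by omega)
        nlinarith
      have h10 : (((H d m r)^[k] y : ℤ) : ℝ) ≤ (((T d m r)^[N] y : ℤ) : ℝ) := by exact_mod_cast h9
      exact h10.trans ((le_abs_self _).trans h7)
    · have h9 : (((H d m r)^[k] y : ℤ) : ℝ) ≤ ((bd d r : ℤ) : ℝ) := by exact_mod_cast hk3
      refine h9.trans ?_
      rw [Int.cast_natCast]
      have h10 : (bd d r : ℝ) ≤ (d : ℝ) ^ N := by
        have : (bd d r : ℝ) * 1 ≤ (bd d r : ℝ) * N := by gcongr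
        linarith
      refine h10.trans ?_
      have h11 : Real.exp (-(κ * L / 4 * N)) * (d : ℝ) ^ (3 * N) ≤ Real.exp (-(κ * L / 4 * N)) * y := by gcongr
      refine le_trans ?_ h11
      rw [hexp, hexp, ← Real.exp_add]
      apply Real.exp_le_exp.2
      push_cast
      have : κ * L ≤ 1 * L := by gcongr
      nlinarith
  refine ⟨k, ?_, hk1, hk2, h8⟩
  rcases Nat.eq_zero_or_pos k with h0 | h0
  · exfalso
    subst h0
    have h9 : Real.exp (-(κ * L / 4 * N)) < 1 := by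
      rw [Real.exp_lt_one_iff]
      have : 0 < Real.log 2 := Real.log_pos (by norm_num)
      linarith
    simp only [Function.iterate_zero, id_eq] at h8
    nlinarith
  · exact h0

end Pool.Agent.W2helper30.HE
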